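import Mathlib
import Pool.Agent.H.MP_b69c94_gt.A

set_option autoImplicit false

namespace Pool.Agent.Results.MP_b69c94_gt.Square

/-- countable network -/
def Cosmic (Y : Type) [TopologicalSpace Y] : Prop :=
  ∃ N : Set (Set Y), N.Countable ∧ ∀ U : Set Y, IsOpen U → ∃ M ⊆ N, U = ⋃₀ M

def OmegaStable (X : Type) [TopologicalSpace X] : Prop :=
  ∀ (Y : Type) [TopologicalSpace Y] [T35Space Y] (h : X → Y), Continuous h →
    Function.Surjective h →
    (∃ (Z : Type) (_ : TopologicalSpace Z) (c : Y → Z), T35Space Z ∧ SecondCountableTopology Z ∧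
      Continuous c ∧ Function.Bijective c) → Cosmic Y

theorem result : ∃ (X : Type) (_ : TopologicalSpace X), T35Space X ∧ LindelofSpace X ∧
    OmegaStable X ∧ ¬ LindelofSpace (X × X) ∧ ¬ LindelofSpace (Fin 2 → X) := by
  obtain ⟨S, h1, h2⟩ := H.MP_b69c94_gt.two_stat
  refine ⟨H.MP_b69c94_gt.X S, inferInstance, inferInstance, H.MP_b69c94_gt.lind h1, ?_,
    H.MP_b69c94_gt.notlind h2, fun h => H.MP_b69c94_gt.notlind h2 ?_⟩
  · rintro Y _ _ h hh hs ⟨Z, _, c, _, _, hc, hb⟩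
    obtain ⟨N, hN, h3⟩ := H.MP_b69c94_gt.stable h1 h hh hs c hc hb.1
    refine ⟨N, hN, fun U hU => ⟨{s ∈ N | s ⊆ U}, fun s hs => hs.1, ?_⟩⟩
    refine Set.Subset.antisymm (fun y hy => ?_) (Set.sUnion_subset fun s hs => hs.2)
    obtain ⟨s, h4, h5, h6⟩ := h3 U hU y hy
    exact ⟨s, ⟨h4, h6⟩, h5⟩
  · have := isLindelof_range (Homeomorph.finTwoArrow (X := H.MP_b69c94_gt.X S)).continuous
    rw [Homeomorph.finTwoArrow.surjective.range_eq] at this
    exact ⟨this⟩

end Pool.Agent.Results.MP_b69c94_gt.Square
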